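import Pool.Agent.MP_be51b2_an.Mg.Main

attribute [-instance] TotallySeparatedSpace.t2Space NonUnitalNonAssocSemiring.toAddCommMonoid
  LeftPreLieAlgebra.toModule RightPreLieAlgebra.toModule RKHS.instFunLike Valued.toUniformSpace
  CoalgHomClass.toSemilinearMapClass NonUnitalNonAssocRing.toAddCommGroup
  NonUnitalNormedRing.toNonUnitalSeminormedRing littleWedderburn
  MonoidWithZeroHomClass.toZeroHomClass NonUnitalNonAssocSemiring.toMulZeroClass
  Action.FintypeCat.instMulActionObjFiniteOf AlexandrovDiscrete.toFirstCountable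
  NonUnitalAlgSemiHomClass.toDistribMulActionSemiHomClass RingHomClass.toLinearMapClassNNRat
  Ring.toAddCommGroup Nontrivial.to_nonempty AddQuantale.instAddLeftMono
  PosSMulStrictMono.toPosSMulReflectLT RingHomClass.toLinearMapClassRat
  SemilinearIsometryClass.toSemilinearMapClass NonUnitalNormedCommRing.toNonUnitalSeminormedCommRing
  GrpTypeEquivalenceGrp.grpGroup NormedField.toNormedCommRing LieRing.toAddCommGroup
  AddMonoidWithOne.toAddMonoid IdemSemiring.toCanonicallyOrderedAdd NormedRing.toRing Distrib.toAdd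
  Algebra.toSMul SeminormedRing.toNonUnitalSeminormedRing MulZeroOneClass.toMulZeroClass
  SeminormedCommGroup.toPseudoMetricSpace IdemSemiring.toSemiring AddGroupWithOne.toAddGroup
  MulSemiringActionSemiHomClass.toDistribMulActionSemiHomClass AddCommMonoidWithOne.toAddCommMonoid
  MulOne.toOne Quantale.instMulRightMono AddQuantale.instAddRightMono SeminormedRing.toRing
  decidableEq_of_subsingleton

/-!
A projective Banach lattice without a topological order unit that is not lattice isomorphic to a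
free Banach lattice: positive generators indexed by `ℝ ⊕ Set ℝ`, those of the second kind lying
below one generator of the first kind.
-/

set_option linter.unusedSectionVars false

namespace Pool.Agent.MP_be51b2_an.H70

open Pool.Agent.MP_be51b2_an

/-- index set of the generators -/
abbrev I : Type := ℝ ⊕ Set ℝ

/-- the generator that bounds a given generator -/
def par : I → I
  | Sum.inl a => Sum.inl a
  | Sum.inr _ => Sum.inl 0

/-- lattice-linear terms in variables indexed by `I` -/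
inductive Tm : Type
  | var : I → Tm
  | zero : Tm
  | add : Tm → Tm → Tm
  | smul : ℝ → Tm → Tm
  | sup : Tm → Tm → Tm

/-- evaluation of terms -/
def eval {X : Type} [AddCommGroup X] [Module ℝ X] [Lattice X] (f : I → X) : Tm → X
  | Tm.var a => f a
  | Tm.zero => 0
  | Tm.add s t => eval f s + eval f t
  | Tm.smul c t => c • eval f t
  | Tm.sup s t => eval f s ⊔ eval f t

theorem map_eval {X Y : Type} [AddCommGroup X] [Module ℝ X] [Lattice X]
    [AddCommGroup Y] [Module ℝ Y] [Lattice Y] (T : X →ₗ[ℝ] Y)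
    (hT : ∀ x y, T (x ⊔ y) = T x ⊔ T y) (f : I → X) :
    ∀ t, T (eval f t) = eval (fun a => T (f a)) t
  | Tm.var a => rfl
  | Tm.zero => map_zero T
  | Tm.add s t => by simp only [eval, map_add, map_eval T hT f s, map_eval T hT f t]
  | Tm.smul c t => by simp only [eval, map_smul, map_eval T hT f t]
  | Tm.sup s t => by simp only [eval, hT, map_eval T hT f s, map_eval T hT f t]

/-- the variables of a term -/
def vars : Tm → Set I
  | Tm.var a => {a}
  | Tm.zero => ∅
  | Tm.add s t => vars s ∪ vars t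
  | Tm.smul _ t => vars t
  | Tm.sup s t => vars s ∪ vars t

theorem vars_countable : ∀ t, (vars t).Countable
  | Tm.var a => Set.countable_singleton a
  | Tm.zero => Set.countable_empty
  | Tm.add s t => (vars_countable s).union (vars_countable t)
  | Tm.smul _ t => vars_countable t
  | Tm.sup s t => (vars_countable s).union (vars_countable t)

theorem eval_eq_zero (f : I → ℝ) : ∀ t, (∀ a ∈ vars t, f a = 0) → eval f t = 0
  | Tm.var a => fun h => h a rfl
  | Tm.zero => fun _ => rfl
  | Tm.add s t => fun h => by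
    simp only [eval, eval_eq_zero f s fun a ha => h a (Or.inl ha),
      eval_eq_zero f t fun a ha => h a (Or.inr ha), add_zero]
  | Tm.smul c t => fun h => by simp only [eval, eval_eq_zero f t h, smul_zero]
  | Tm.sup s t => fun h => by
    simp only [eval, eval_eq_zero f s fun a ha => h a (Or.inl ha),
      eval_eq_zero f t fun a ha => h a (Or.inr ha), sup_idem]

theorem exists_term (x : Tm →₀ ℝ) : ∃ t : Tm, ∀ (X : Type) [AddCommGroup X] [Module ℝ X]
    [Lattice X] (f : I → X), eval f t = Finsupp.linearCombination ℝ (eval f) x := by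
  induction x using Finsupp.induction_linear with
  | zero => exact ⟨Tm.zero, fun X _ _ _ f => by simp [eval]⟩
  | add x y hx hy =>
    obtain ⟨s, hs⟩ := hx
    obtain ⟨t, ht⟩ := hy
    exact ⟨Tm.add s t, fun X _ _ _ f => by simp only [eval, map_add, hs X f, ht X f]⟩
  | single t c => exact ⟨Tm.smul c t, fun X _ _ _ f => by simp [eval]⟩

/-- seminorms on terms that come from some Banach lattice -/
def Good (ν : Tm → ℝ) : Prop :=
  ∃ (X : BL) (f : I → X.car), (∀ a, (0 ≤ f a ∧ f a ≤ f (par a)) ∧ ‖f a‖ ≤ 1) ∧ ∀ t, ν t = ‖eval f t‖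

/-- index set -/
def Idx : Type := {ν : Tm → ℝ // Good ν}

/-- chosen witnesses -/
noncomputable def wit (ν : Idx) : BL := ν.2.choose

/-- chosen generators -/
noncomputable def witf (ν : Idx) : I → (wit ν).car := ν.2.choose_spec.choose

theorem witf_spec (ν : Idx) :
    (∀ a, (0 ≤ witf ν a ∧ witf ν a ≤ witf ν (par a)) ∧ ‖witf ν a‖ ≤ 1) ∧ ∀ t, ν.1 t = ‖eval (witf ν) t‖ :=
  ν.2.choose_spec.choose_spec

/-- generators in the big product -/
noncomputable def gen0 (a : I) : Linf wit :=
  Linf.mk wit (fun ν => witf ν a) 1 fun ν => ((witf_spec ν).1 a).2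

theorem gen0_nonneg (a : I) : 0 ≤ gen0 a := by
  rw [Linf.le_iff, map_zero]
  exact fun ν => ((witf_spec ν).1 a).1.1

theorem gen0_le (a : I) : gen0 a ≤ gen0 (par a) := by
  rw [Linf.le_iff]
  exact fun ν => ((witf_spec ν).1 a).1.2

theorem gen0_norm (a : I) : ‖gen0 a‖ ≤ 1 :=
  Linf.norm_le wit _ zero_le_one fun ν => ((witf_spec ν).1 a).2

theorem co_eval_gen0 (t : Tm) (ν : Idx) : Linf.co wit (eval gen0 t) ν = eval (witf ν) t :=
  map_eval ((LinearMap.proj ν).comp (Linf.co wit)) (fun _ _ => rfl) gen0 t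

theorem norm_eval_le {X : Type} [NormedAddCommGroup X] [NormedSpace ℝ X] [Lattice X]
    [IsBanachLattice X] (f : I → X) (hf : ∀ a, (0 ≤ f a ∧ f a ≤ f (par a)) ∧ ‖f a‖ ≤ 1) (t : Tm) :
    ‖eval f t‖ ≤ ‖eval gen0 t‖ := by
  let ν : Idx := ⟨fun t => ‖eval f t‖, ⟨X⟩, f, hf, fun _ => rfl⟩
  have h1 : ‖eval f t‖ = ‖eval (witf ν) t‖ := (witf_spec ν).2 t
  rw [h1, ← co_eval_gen0]
  exact Linf.norm_co_le wit _ ν

/-- the span of evaluated terms -/
noncomputable def lc0 : (Tm →₀ ℝ) →ₗ[ℝ] Linf wit := Finsupp.linearCombination ℝ (eval gen0)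

theorem range_lc0 : (LinearMap.range lc0 : Set (Linf wit)) = Set.range (eval gen0) := by
  ext y
  constructor
  · rintro ⟨x, rfl⟩
    obtain ⟨t, ht⟩ := exists_term x
    exact ⟨t, ht _ _⟩
  · rintro ⟨t, rfl⟩
    exact ⟨Finsupp.single t 1, by simp [lc0]⟩

/-- the closed sublattice generated by the generators -/
noncomputable def PS : CSub (Linf wit) where
  sub := (LinearMap.range lc0).topologicalClosure
  sup_mem := by
    intro x y hx hy
    change x ∈ closure (LinearMap.range lc0 : Set (Linf wit)) at hx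
    change y ∈ closure (LinearMap.range lc0 : Set (Linf wit)) at hy
    change x ⊔ y ∈ closure (LinearMap.range lc0 : Set (Linf wit))
    rw [range_lc0] at hx hy ⊢
    refine map_mem_closure₂ (f := fun a b : Linf wit => a ⊔ b) continuous_sup hx hy ?_
    rintro _ ⟨s, rfl⟩ _ ⟨t, rfl⟩
    exact ⟨Tm.sup s t, rfl⟩
  closed := Submodule.isClosed_topologicalClosure _

/-- the free Banach lattice on positive generators -/
abbrev PP : Type := PS.T

theorem eval_mem (t : Tm) : eval gen0 t ∈ PS.sub := by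
  refine Submodule.le_topologicalClosure _ ?_
  change eval gen0 t ∈ (LinearMap.range lc0 : Set (Linf wit))
  rw [range_lc0]
  exact ⟨t, rfl⟩

/-- the generators -/
noncomputable def gen (a : I) : PP := PS.mk' (gen0 a) (eval_mem (Tm.var a))

theorem gen_nonneg (a : I) : 0 ≤ gen a := by
  rw [PS.incl_le, map_zero]
  exact gen0_nonneg a

theorem gen_le (a : I) : gen a ≤ gen (par a) := by
  rw [PS.incl_le]
  exact gen0_le a

theorem gen_norm (a : I) : ‖gen a‖ ≤ 1 := gen0_norm a

theorem incl_eval (t : Tm) : PS.incl (eval gen t) = eval gen0 t :=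
  map_eval (PS.incl : PP →ₗ[ℝ] Linf wit) (fun x y => (PS.incl_hom x y).1) gen t

theorem denseRange_eval : DenseRange (eval gen) := by
  intro x
  have hx : PS.incl x ∈ closure (LinearMap.range lc0 : Set (Linf wit)) := PS.incl_mem x
  rw [range_lc0] at hx
  rw [Metric.mem_closure_iff] at hx ⊢
  intro ε hε
  obtain ⟨_, ⟨t, rfl⟩, ht⟩ := hx ε hε
  refine ⟨_, ⟨t, rfl⟩, ?_⟩
  rw [dist_eq_norm] at ht ⊢
  rw [← PS.norm_incl, map_sub, incl_eval]
  exact ht

section Univ

variable {X : Type} [NormedAddCommGroup X] [NormedSpace ℝ X] [Lattice X] [IsBanachLattice X]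

theorem hom_ext {S T : PP →L[ℝ] X} (hS : IsLatticeHom S) (hT : IsLatticeHom T)
    (h : ∀ a, S (gen a) = T (gen a)) : S = T := by
  apply DFunLike.coe_injective
  refine denseRange_eval.equalizer S.continuous T.continuous (funext fun t => ?_)
  have e1 := map_eval (S : PP →ₗ[ℝ] X) (fun x y => (hS x y).1) gen t
  have e2 := map_eval (T : PP →ₗ[ℝ] X) (fun x y => (hT x y).1) gen t
  simp only [ContinuousLinearMap.coe_coe] at e1 e2
  simp only [Function.comp, e1, e2, h]

theorem exists_hom_one (f : I → X) (hf : ∀ a, (0 ≤ f a ∧ f a ≤ f (par a)) ∧ ‖f a‖ ≤ 1) :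
    ∃ T : PP →L[ℝ] X, IsLatticeHom T ∧ (∀ a, T (gen a) = f a) ∧ ‖T‖ ≤ 1 := by
  let F : (Tm →₀ ℝ) →ₗ[ℝ] X := Finsupp.linearCombination ℝ (eval f)
  let E : (Tm →₀ ℝ) →ₗ[ℝ] PP := Finsupp.linearCombination ℝ (eval gen)
  have hE : DenseRange E := by
    refine denseRange_eval.mono ?_
    rintro _ ⟨t, rfl⟩
    exact ⟨Finsupp.single t 1, by simp [E]⟩
  have hb : ∀ x, ‖F x‖ ≤ 1 * ‖E x‖ := by
    intro x
    obtain ⟨t, ht⟩ := exists_term x
    rw [one_mul, ← ht X f, ← ht PP gen, ← PS.norm_incl, incl_eval]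
    exact norm_eval_le f hf t
  have hev : ∀ t, F.extendOfNorm E (eval gen t) = eval f t := by
    intro t
    have := LinearMap.extendOfNorm_eq hE ⟨1, hb⟩ (Finsupp.single t 1)
    simpa [E, F] using this
  refine ⟨F.extendOfNorm E, isLatticeHom_of_sup fun x y => ?_, fun a => hev (Tm.var a),
    LinearMap.opNorm_extendOfNorm_le hE zero_le_one hb⟩
  refine denseRange_eval.induction_on₂
    (p := fun x y => F.extendOfNorm E (x ⊔ y) = F.extendOfNorm E x ⊔ F.extendOfNorm E y)
    (isClosed_eq (by fun_prop) (by fun_prop)) (fun s t => ?_) x y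
  rw [hev, hev]
  exact hev (Tm.sup s t)

theorem exists_hom (f : I → X) {C : ℝ} (hC : 0 < C) (hf : ∀ a, (0 ≤ f a ∧ f a ≤ f (par a)) ∧ ‖f a‖ ≤ C) :
    ∃ T : PP →L[ℝ] X, IsLatticeHom T ∧ (∀ a, T (gen a) = f a) ∧ ‖T‖ ≤ C := by
  obtain ⟨T, hT, hTf, hn⟩ := exists_hom_one (fun a => C⁻¹ • f a) fun a =>
    ⟨⟨smul_nonneg (inv_nonneg.2 hC.le) (hf a).1.1,
      smul_le_smul_of_nonneg_left (hf a).1.2 (inv_nonneg.2 hC.le)⟩, by
      rw [norm_smul, Real.norm_of_nonneg (inv_nonneg.2 hC.le), inv_mul_le_iff₀ hC, mul_one]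
      exact (hf a).2⟩
  refine ⟨C • T, isLatticeHom_of_sup fun x y => ?_, fun a => ?_, ?_⟩
  · simp only [smul_apply, (hT x y).1]
    exact (OrderIso.smulRight (β := X) hC).map_sup _ _
  · simp only [smul_apply, hTf, smul_inv_smul₀ hC.ne']
  · rw [norm_smul, Real.norm_of_nonneg hC.le]
    exact mul_le_of_le_one_right hC.le hn

end Univ

theorem projective_PP : IsProjective PP := by
  intro X _ _ _ _ Y _ _ _ _ Q hQ T hT ε hε
  rcases (norm_nonneg T).eq_or_lt with h0 | hpos
  · have hT0 : T = 0 := norm_eq_zero.1 h0.symm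
    refine ⟨0, fun x y => by simp only [zero_apply, Std.le_refl, sup_of_le_left, inf_of_le_left, and_self], by simp [hT0], by simp [hT0]⟩
  have hlift : ∀ a, ∃ x : X, (0 ≤ x ∧ ‖x‖ ≤ (1 + ε) * ‖T‖) ∧ Q x = T (gen a) := by
    intro a
    obtain ⟨x₀, hx₀⟩ := hQ.2.1 (T (gen a))
    have h1 : ‖T (gen a)‖ ≤ ‖T‖ :=
      (T.le_opNorm _).trans (mul_le_of_le_one_right hpos.le (gen_norm a))
    have h2 : Metric.infDist x₀ {z | Q z = 0} < (1 + ε) * ‖T‖ := by
      rw [← hQ.2.2, hx₀]
      linarith only [mul_pos hε hpos, h1]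
    obtain ⟨z, hz, hzd⟩ := (Metric.infDist_lt_iff (s := {z | Q z = 0}) ⟨0, map_zero Q⟩).1 h2
    have hz' : Q z = 0 := hz
    refine ⟨|x₀ - z|, ⟨abs_nonneg _, ?_⟩, ?_⟩
    · rw [norm_abs_eq_norm, ← dist_eq_norm]
      exact hzd.le
    · rw [hQ.1.map_abs, map_sub, hz', sub_zero, hx₀]
      exact abs_of_nonneg (by simpa only [map_zero] using hT.mono (gen_nonneg a))
  choose x hx hQx using hlift
  have hpp : ∀ a, par (par a) = par a := by rintro (a | a) <;> rfl
  have h0 : ∀ a, 0 ≤ x a ⊓ x (par a) := fun a => le_inf (hx a).1 (hx _).1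
  obtain ⟨S, hS, hSf, hn⟩ := exists_hom (fun a => x a ⊓ x (par a)) (C := (1 + ε) * ‖T‖)
    (by positivity) fun a => ⟨⟨h0 a, by rw [hpp, inf_idem]; exact inf_le_right⟩, by
      refine le_trans (norm_le_norm_of_abs_le_abs ?_) (hx a).2
      rw [abs_of_nonneg (h0 a), abs_of_nonneg (hx a).1]
      exact inf_le_left⟩
  refine ⟨S, hS, hom_ext (hQ.1.comp hS) hT fun a => ?_, hn⟩
  rw [ContinuousLinearMap.comp_apply, hSf, (hQ.1 _ _).2, hQx, hQx]
  exact inf_eq_left.2 (hT.mono (gen_le a))

theorem exists_coord (a₀ : ℝ) : ∃ φ : PP →L[ℝ] ℝ, IsLatticeHom φ ∧ φ (gen (Sum.inl a₀)) = 1 ∧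
    ∀ a, a ≠ Sum.inl a₀ → φ (gen a) = 0 := by
  classical
  obtain ⟨φ, hφ, hf, -⟩ := exists_hom (fun a => if a = Sum.inl a₀ then (1 : ℝ) else 0) one_pos
    fun a => by
      rcases a with a | a
      · simp only [par]; split_ifs <;> simp
      · simp only [par, reduceCtorEq, if_false]; split_ifs <;> simp only [Std.le_refl, zero_le_one, and_self, norm_zero]
  exact ⟨φ, hφ, by simp [hf], fun a ha => by simp [hf, ha]⟩

theorem no_unit (e : PP) : ¬ IsTopOrderUnit e := by
  rintro ⟨-, he⟩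
  obtain ⟨u, hu, hlim⟩ := mem_closure_iff_seq_limit.1 (denseRange_eval e)
  choose t ht using hu
  have hc : (⋃ n, vars (t n)).Countable := Set.countable_iUnion fun n => vars_countable _
  obtain ⟨a₀, ha₀⟩ : ∃ a₀ : ℝ, Sum.inl a₀ ∉ ⋃ n, vars (t n) := by
    by_contra h
    push Not at h
    exact Set.not_countable_univ
      ((hc.preimage_of_injOn (f := (Sum.inl : ℝ → I)) Sum.inl_injective.injOn).mono
        fun a _ => h a)
  obtain ⟨φ, hφ, h1, h0⟩ := exists_coord a₀
  have hun : ∀ n, φ (u n) = 0 := by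
    intro n
    have e1 := map_eval (φ : PP →ₗ[ℝ] ℝ) (fun x y => (hφ x y).1) gen (t n)
    simp only [ContinuousLinearMap.coe_coe] at e1
    rw [← ht n, e1]
    refine eval_eq_zero _ _ fun a ha => h0 a ?_
    rintro rfl
    exact ha₀ (Set.mem_iUnion.2 ⟨n, ha⟩)
  have hφe : φ e = 0 := by
    have := (φ.continuous.tendsto e).comp hlim
    have h2 : φ ∘ u = fun _ => 0 := funext hun
    rw [h2] at this
    exact tendsto_nhds_unique this tendsto_const_nhds
  have hJ := he (LinearMap.ker (φ : PP →ₗ[ℝ] ℝ)) ⟨φ.isClosed_ker, fun x y hxy hy => by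
    have hy' : φ y = 0 := hy
    have := hφ.mono hxy
    rw [hφ.map_abs, hφ.map_abs, hy', abs_zero] at this
    exact abs_nonpos_iff.1 this⟩ hφe
  have : gen (Sum.inl a₀) ∈ LinearMap.ker (φ : PP →ₗ[ℝ] ℝ) := hJ ▸ Submodule.mem_top
  have h3 : φ (gen (Sum.inl a₀)) = 0 := this
  rw [h1] at h3
  exact one_ne_zero h3

section NotIso

variable {F : Type} [NormedAddCommGroup F] [NormedSpace ℝ F] [Lattice F] [IsBanachLattice F]
  {A : Type*} [Nonempty A] {δ : A → F}

theorem free_ext (h : IsFreeOn δ) {φ ψ : F →L[ℝ] ℝ} (hφ : IsLatticeHom φ) (hψ : IsLatticeHom ψ)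
    (e : ∀ a, φ (δ a) = ψ (δ a)) : φ = ψ := by
  let S : CSub F :=
    { sub := LinearMap.eqLocus (φ : F →ₗ[ℝ] ℝ) (ψ : F →ₗ[ℝ] ℝ)
      sup_mem := fun x y hx hy => by
        have hx' : φ x = ψ x := hx
        have hy' : φ y = ψ y := hy
        change φ (x ⊔ y) = ψ (x ⊔ y)
        rw [(hφ x y).1, (hψ x y).1, hx', hy']
      closed := isClosed_eq φ.continuous ψ.continuous }
  exact ContinuousLinearMap.ext fun x => h.sub_eq_top S e x

theorem free_coord (h : IsFreeOn δ) : ∃ ψ : A → F →L[ℝ] ℝ, (∀ c, IsLatticeHom (ψ c)) ∧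
    (∀ c, ψ c (δ c) = 1) ∧ ∀ x : F, {c | ψ c x ≠ 0}.Countable := by
  classical
  have h1 : ∀ c : A, ∃ ψ : F →L[ℝ] ℝ, IsLatticeHom ψ ∧
      ∀ a, ψ (δ a) = if a = c then 1 else 0 := fun c => by
    obtain ⟨ψ, ⟨e1, e2, -⟩, -⟩ := h.2 ℝ (fun a => if a = c then (1 : ℝ) else 0)
      ⟨1, by rintro _ ⟨a, rfl⟩; dsimp only; split_ifs <;> simp⟩
    exact ⟨ψ, e1, e2⟩
  choose ψ hψ hv using h1
  refine ⟨ψ, hψ, fun c => by simp [hv], fun x => ?_⟩
  let S : CSub F :=
    { sub :=
        { carrier := {x | {c | ψ c x ≠ 0}.Countable}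
          add_mem' := fun {x y} hx hy => (Set.Countable.union hx hy).mono fun c hc => by
            by_contra hn
            simp only [Set.mem_union, Set.mem_ofPred_eq, not_or, not_not] at hn
            exact hc (by rw [map_add, hn.1, hn.2, add_zero])
          zero_mem' := by simp only [ne_eq, Set.mem_ofPred_eq, map_zero, not_true_eq_false, Set.ofPred_false, Set.countable_empty]
          smul_mem' := fun r x hx => Set.Countable.mono (fun c hc => by
            intro hn
            exact hc (by rw [map_smul, hn, smul_zero])) hx }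
      sup_mem := fun x y hx hy => (Set.Countable.union hx hy).mono fun c hc => by
        by_contra hn
        simp only [Set.mem_union, Set.mem_ofPred_eq, not_or, not_not] at hn
        exact hc (by rw [(hψ c x y).1, hn.1, hn.2, sup_idem])
      closed := IsSeqClosed.isClosed fun u x hu hlim => by
        refine (Set.countable_iUnion fun n => hu n).mono fun c hc => ?_
        by_contra hn
        simp only [Set.mem_iUnion, Set.mem_ofPred_eq, not_exists, not_not] at hn
        have e1 := ((ψ c).continuous.tendsto x).comp hlim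
        have e2 : ψ c ∘ u = fun _ => 0 := funext hn
        rw [e2] at e1
        exact hc (tendsto_nhds_unique e1 tendsto_const_nhds) }
  refine h.sub_eq_top S (fun a => ?_) x
  refine (Set.countable_singleton a).mono fun c hc => ?_
  by_contra hn
  exact hc (by rw [hv, if_neg fun e => hn e.symm])

theorem not_iso (h : IsFreeOn δ) (T : PP →L[ℝ] F) (hT : IsLatticeHom T) :
    ¬ Function.Bijective T := by
  classical
  intro hb
  obtain ⟨ψ, hψ, hv, hc⟩ := free_coord h
  obtain ⟨c₀⟩ := ‹Nonempty A›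
  have h1 : ∀ a : ℝ, ∃ s : ℕ → A, insert c₀ {c | ψ c (T (gen (Sum.inl a))) ≠ 0} = Set.range s :=
    fun a => ((hc _).insert c₀).exists_eq_range ⟨c₀, Set.mem_insert _ _⟩
  choose s hs using h1
  have hsurj : ∀ c, ∃ p : ℝ × ℕ, s p.1 p.2 = c := by
    intro c
    by_contra hn
    push Not at hn
    have e1 : ∀ a : ℝ, ψ c (T (gen (Sum.inl a))) = 0 := fun a => by
      by_contra e
      obtain ⟨n, e'⟩ : c ∈ Set.range (s a) := hs a ▸ Set.mem_insert_of_mem _ e
      exact hn (a, n) e'
    have e2 : (ψ c).comp T = 0 := by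
      refine hom_ext ((hψ c).comp hT) (fun x y => by simp only [zero_apply, max_self, min_self, and_self]) fun a => ?_
      rcases a with a | a
      · exact e1 a
      · have l1 := ((hψ c).comp hT).mono (gen_le (Sum.inr a))
        have l2 := ((hψ c).comp hT).mono (gen_nonneg (Sum.inr a))
        rw [map_zero] at l2
        exact le_antisymm (l1.trans (e1 0).le) l2
    obtain ⟨x, hx⟩ := hb.2 (δ c)
    have e3 : ψ c (T x) = 0 := congrArg (fun V : PP →L[ℝ] ℝ => V x) e2
    rw [hx, hv] at e3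
    exact one_ne_zero e3
  let E : PP ≃L[ℝ] F := ContinuousLinearEquiv.ofBijective T
    (LinearMap.ker_eq_bot.2 hb.1) (LinearMap.range_eq_top.2 hb.2)
  have hE : ∀ x, E.symm (T x) = x := fun x => E.symm_apply_apply x
  have hEs : IsLatticeHom (E.symm : F →L[ℝ] PP) := by
    intro x y
    obtain ⟨x, rfl⟩ := hb.2 x
    obtain ⟨y, rfl⟩ := hb.2 y
    simp only [ContinuousLinearEquiv.coe_coe, ← (hT x y).1, ← (hT x y).2, hE, and_self]
  have h2 : ∀ B : Set (Set ℝ), ∃ φ : PP →L[ℝ] ℝ, IsLatticeHom φ ∧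
      ∀ b, φ (gen (Sum.inr b)) = if b ∈ B then 1 else 0 := fun B => by
    obtain ⟨φ, hφ, hf, -⟩ := exists_hom
      (Sum.elim (fun _ => (1 : ℝ)) fun b => if b ∈ B then 1 else 0) one_pos fun a => by
        rcases a with a | a
        · simp [par]
        · simp only [par, Sum.elim_inr, Sum.elim_inl]; split_ifs <;> simp only [zero_le_one, Std.le_refl, and_self, norm_one, norm_zero]
    exact ⟨φ, hφ, fun b => hf _⟩
  choose φ hφ hφv using h2
  have hinj : Function.Injective
      fun (B : Set (Set ℝ)) (p : ℝ × ℕ) => φ B (E.symm (δ (s p.1 p.2))) := by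
    intro B B' e
    have e1 : (φ B).comp (E.symm : F →L[ℝ] PP) = (φ B').comp (E.symm : F →L[ℝ] PP) := by
      refine free_ext h ((hφ B).comp hEs) ((hφ B').comp hEs) fun c => ?_
      obtain ⟨p, rfl⟩ := hsurj c
      exact congrFun e p
    ext b
    have e2 : φ B (E.symm (T (gen (Sum.inr b)))) = φ B' (E.symm (T (gen (Sum.inr b)))) :=
      congrArg (fun V : F →L[ℝ] ℝ => V (T (gen (Sum.inr b)))) e1
    rw [hE, hφv, hφv] at e2
    by_cases h1 : b ∈ B <;> by_cases h2 : b ∈ B' <;> simp_all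
  have hcard := Cardinal.mk_le_of_injective hinj
  rw [Cardinal.mk_set, Cardinal.mk_set, ← Cardinal.power_def, Cardinal.mk_prod, Cardinal.mk_real,
    Cardinal.mk_nat, Cardinal.lift_id, Cardinal.lift_id, Cardinal.continuum_mul_aleph0,
    Cardinal.power_self_eq Cardinal.aleph0_le_continuum] at hcard
  exact absurd hcard (Cardinal.cantor _).not_ge

end NotIso

end Pool.Agent.MP_be51b2_an.H70
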